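import Mathlib

set_option autoImplicit false

/-!
# A large splitting number at `κ` and the failure of GCH at inaccessible cardinals below `κ`

Let `κ` be a regular uncountable cardinal and let `γ ≤ κ` be an ordinal.  Write `α⁺ᵞ` for the `γ`-th
cardinal successor of `α`.  If `s(κ) > κ⁺⁽ᵞ⁺¹⁾`, then the set of the inaccessible cardinals `α < κ`
with `2 ^ α > α⁺ᵞ` (for `γ = κ`: with `2 ^ α > α⁺ᵅ`) is stationary in `κ`.

For `γ = 1`: if `s(κ) ≥ κ⁺³`, then `2 ^ α ≥ α⁺²` for stationarily many inaccessible `α < κ`.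

Proof.  Suppose that `θ = κ⁺⁽ᵞ⁺¹⁾ < s(κ)`, and let `C` be a closed unbounded subset of `κ`.  Let
`X i`, `i < θ`, be different subsets of `κ`.  Consider a family of `θ` functions from `κ` to the
ordinals which contains the identity and the constants less than `κ` and is closed under a number
of operations.  There is a set `A` of size `κ` which is not split by any of the sets where one of
two such functions is smaller than, or equal to, the other one.  Let `t` be minimal (modulo the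
sets which meet `A` in a set of size less than `κ`) among the functions of the family which are not
constant.  Almost everywhere `t` is an inaccessible cardinal which belongs to `C`: otherwise `t`
could be computed from fewer than `κ` functions smaller than `t`, all of which are constant.
By induction on `m ≤ κ`, there are at most `κ⁺ᵐ` functions of the family below `t⁺ᵐ` (below `t⁺ᵗ`
for `m = κ`).  But the functions `code t (X i ∩ t)` are `θ` different functions below `2 ^ t`.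
-/

namespace Pool.Agent.Results.MP_0882a3_lc.StationaryFailure

open Cardinal Set Filter

universe u

/-- The cardinal `κ`, as the well-ordered set of the ordinals less than `κ`. -/
abbrev K (κ : Cardinal.{u}) : Type u := κ.ord.ToType

/-- The set `S` splits the set `A`: both `A ∩ S` and `A \ S` have cardinality `κ`. -/
def Splits (κ : Cardinal.{u}) (S A : Set (K κ)) : Prop :=
  #(↥(A ∩ S)) = κ ∧ #(↥(A \ S)) = κ

/-- `F` is a family of subsets of `κ` of cardinality `κ` such that each subset of `κ` of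
cardinality `κ` is split by some member of `F`. -/
def IsSplittingFamily (κ : Cardinal.{u}) (F : Set (Set (K κ))) : Prop :=
  (∀ S ∈ F, #(↥S) = κ) ∧ ∀ A : Set (K κ), #(↥A) = κ → ∃ S ∈ F, Splits κ S A

/-- The splitting number `s(κ)`: the least cardinality of a splitting family. -/
noncomputable def splittingNumber (κ : Cardinal.{u}) : Cardinal.{u} :=
  sInf {θ | ∃ F : Set (Set (K κ)), IsSplittingFamily κ F ∧ #(↥F) = θ}

section

variable {κ : Cardinal.{u}}

theorem mkK : #(K κ) = κ := by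
  rw [Cardinal.mk_toType, card_ord]

/-- a family which is smaller than `s(κ)` does not split some set -/
theorem exists_unsplit {θ : Cardinal.{u}} (hθ : θ < splittingNumber κ) (F : Set (Set (K κ)))
    (hF : #(↥F) ≤ θ) :
    ∃ A : Set (K κ), #(↥A) = κ ∧ ∀ S ∈ F, #(↥(A ∩ S)) < κ ∨ #(↥(A \ S)) < κ := by
  by_contra hcon
  push Not at hcon
  have hsp : IsSplittingFamily κ {S ∈ F | #(↥S) = κ} := by
    refine ⟨fun S hS => hS.2, fun A hA => ?_⟩
    obtain ⟨S, hS, h1, h2⟩ := hcon A hA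
    have h3 : #(↥(A ∩ S)) ≤ κ := (mk_le_mk_of_subset inter_subset_left).trans_eq hA
    have h4 : #(↥(A \ S)) ≤ κ := (mk_le_mk_of_subset sdiff_subset).trans_eq hA
    have h5 : #(↥S) ≤ κ := (mk_set_le S).trans_eq mkK
    have h6 : κ ≤ #(↥S) := h1.trans (mk_le_mk_of_subset inter_subset_right)
    exact ⟨S, ⟨hS, le_antisymm h5 h6⟩, le_antisymm h3 h1, le_antisymm h4 h2⟩
  have h7 : splittingNumber κ ≤ #(↥{S ∈ F | #(↥S) = κ}) := csInf_le' ⟨_, hsp, rfl⟩
  exact absurd (h7.trans ((mk_le_mk_of_subset (sep_subset _ _)).trans hF)) (not_le.2 hθ)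

/-- a set of infinite cardinality `κ` is the union of two disjoint sets of cardinality `κ` -/
theorem exists_half (hκ : ℵ₀ ≤ κ) (A : Set (K κ)) (hA : #(↥A) = κ) :
    ∃ S : Set (K κ), #(↥(A ∩ S)) = κ ∧ #(↥(A \ S)) = κ := by
  have h1 : #(↥A ⊕ ↥A) = #(↥A) := by
    rw [mk_sum, lift_id, hA, add_eq_self hκ]
  obtain ⟨e⟩ := Cardinal.eq.1 h1
  have h2 : ∀ f : ↥A → ↥A ⊕ ↥A, Function.Injective f → ∀ B : Set (K κ),
      (∀ a, ((e (f a) : ↥A) : K κ) ∈ B) → B ⊆ A → #(↥B) = κ := by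
    intro f hf B hB hBA
    refine le_antisymm ((mk_le_mk_of_subset hBA).trans_eq hA) ?_
    have : #(↥A) ≤ #(↥B) := by
      refine mk_le_of_injective (f := fun a => (⟨_, hB a⟩ : ↥B)) ?_
      intro a b hab
      have h3 : ((e (f a) : ↥A) : K κ) = ((e (f b) : ↥A) : K κ) := by
        simpa only [Subtype.mk.injEq] using hab
      exact hf (e.injective (Subtype.ext h3))
    rwa [hA] at this
  refine ⟨{x | ∃ a : ↥A, ((e (Sum.inl a) : ↥A) : K κ) = x}, ?_, ?_⟩
  · exact h2 Sum.inl Sum.inl_injective _ (fun a => ⟨(e (Sum.inl a)).2, a, rfl⟩) inter_subset_left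
  · refine h2 Sum.inr Sum.inr_injective _ (fun a => ⟨(e (Sum.inr a)).2, ?_⟩) sdiff_subset
    rintro ⟨b, hb⟩
    have := e.injective (Subtype.ext hb)
    simp at this

/-- the ordinal of an element of `κ` -/
noncomputable def vo (x : K κ) : Ordinal.{u} := ((Ordinal.ToType.mk.symm x : Iio κ.ord) : Ordinal.{u})

theorem vo_lt (x : K κ) : vo x < κ.ord := (Ordinal.ToType.mk.symm x : Iio κ.ord).2

theorem exists_vo {o : Ordinal.{u}} (ho : o < κ.ord) : ∃ x : K κ, vo x = o :=
  ⟨Ordinal.ToType.mk ⟨o, ho⟩, by simp [vo]⟩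

theorem vo_inj {x y : K κ} (h : vo x = vo y) : x = y :=
  Ordinal.ToType.mk.symm.injective (Subtype.ext h)

theorem exists_code : ∃ code : Ordinal.{u} → Set Ordinal.{u} → Ordinal.{u},
    (∀ α X, code α X < ((2 : Cardinal.{u}) ^ α.card).ord) ∧
    ∀ α X Y, code α X = code α Y → ∀ β < α, (β ∈ X ↔ β ∈ Y) := by
  have h1 : ∀ α : Ordinal.{u},
      Nonempty (Set α.ToType ≃ ((2 : Cardinal.{u}) ^ α.card).ord.ToType) := fun α => by
    rw [← Cardinal.eq, mk_set, Cardinal.mk_toType, Cardinal.mk_toType, card_ord]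
  let e := fun α => Classical.choice (h1 α)
  refine ⟨fun α X => ((Ordinal.ToType.mk.symm
    (e α {x | ((Ordinal.ToType.mk.symm x : Iio α) : Ordinal.{u}) ∈ X}) :
      Iio (((2 : Cardinal.{u}) ^ α.card).ord)) : Ordinal.{u}), fun α X =>
        (Ordinal.ToType.mk.symm (e α {x | ((Ordinal.ToType.mk.symm x : Iio α) : Ordinal.{u}) ∈ X}) :
          Iio (((2 : Cardinal.{u}) ^ α.card).ord)).2, ?_⟩
  intro α X Y h β hβ
  have h2 := (e α).injective (Ordinal.ToType.mk.symm.injective (Subtype.ext h))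
  have h3 := Set.ext_iff.1 h2 (Ordinal.ToType.mk ⟨β, hβ⟩)
  simpa using h3

theorem exists_h : ∃ h : Ordinal.{u} → Ordinal.{u} → Ordinal.{u},
    (∀ γ β, β < γ → h γ β < γ.card.ord) ∧
    ∀ γ β β', β < γ → β' < γ → h γ β = h γ β' → β = β' := by
  have h1 : ∀ γ : Ordinal.{u}, Nonempty (γ.ToType ≃ γ.card.ord.ToType) := fun γ => by
    rw [← Cardinal.eq, Cardinal.mk_toType, Cardinal.mk_toType, card_ord]
  let e := fun α => Classical.choice (h1 α)
  classical
  refine ⟨fun γ β => if hβ : β < γ then ((Ordinal.ToType.mk.symm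
    (e γ (Ordinal.ToType.mk ⟨β, hβ⟩)) : Iio (γ.card.ord)) : Ordinal.{u}) else 0, ?_, ?_⟩
  · intro γ β hβ
    simp only [dif_pos hβ]
    exact (Ordinal.ToType.mk.symm (e γ (Ordinal.ToType.mk ⟨β, hβ⟩)) : Iio (γ.card.ord)).2
  · intro γ β β' hβ hβ' h
    simp only [dif_pos hβ, dif_pos hβ'] at h
    have h2 := Ordinal.ToType.mk.injective
      ((e γ).injective (Ordinal.ToType.mk.symm.injective (Subtype.ext h)))
    exact congrArg Subtype.val h2

/-- the sets which contain almost all elements of `A` -/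
def fil (hκ : ℵ₀ ≤ κ) (A : Set (K κ)) : Filter (K κ) :=
  Filter.comk (fun s => #(↥(A ∩ s)) < κ)
    (by simpa using (aleph0_pos.trans_le hκ))
    (fun t ht s hst => (mk_le_mk_of_subset (inter_subset_inter_right A hst)).trans_lt ht)
    (fun s hs t ht => by
      rw [inter_union_distrib_left]
      exact (mk_union_le _ _).trans_lt (add_lt_of_lt hκ hs ht))

theorem mem_fil {hκ : ℵ₀ ≤ κ} {A s : Set (K κ)} : s ∈ fil hκ A ↔ #(↥(A \ s)) < κ := by
  rw [fil, Filter.mem_comk, sdiff_eq]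

theorem fil_all {hκ : ℵ₀ ≤ κ} (hr : κ.IsRegular) {A : Set (K κ)} {ι : Type u} (hι : #ι < κ)
    {P : ι → K κ → Prop} (h : ∀ i, ∀ᶠ ξ in fil hκ A, P i ξ) :
    ∀ᶠ ξ in fil hκ A, ∀ i, P i ξ := by
  have h1 : {ξ | ∀ i, P i ξ} ∈ fil hκ A := by
    rw [mem_fil]
    have h2 : A \ {ξ | ∀ i, P i ξ} = ⋃ i, A \ {ξ | P i ξ} := by
      ext ξ
      simp only [Set.mem_sdiff, mem_ofPred_eq, mem_iUnion, not_forall]
      exact ⟨fun h => let ⟨i, hi⟩ := h.2; ⟨i, h.1, hi⟩, fun ⟨i, h, hi⟩ => ⟨h, i, hi⟩⟩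
    rw [h2, card_iUnion_lt_iff_forall_of_isRegular hr hι]
    exact fun i => mem_fil.1 (h i)
  exact h1

theorem fil_nat {hκ : ℵ₀ ≤ κ} (hr : κ.IsRegular) (h0 : ℵ₀ < κ) {A : Set (K κ)}
    {P : ℕ → K κ → Prop} (h : ∀ i, ∀ᶠ ξ in fil hκ A, P i ξ) :
    ∀ᶠ ξ in fil hκ A, ∀ i, P i ξ := by
  have := fil_all (hκ := hκ) hr (ι := ULift.{u} ℕ) (A := A) (by simpa using h0)
    (P := fun i ξ => P i.down ξ) (fun i => h i.down)
  exact this.mono fun ξ hξ i => hξ ⟨i⟩

theorem fil_neBot {hκ : ℵ₀ ≤ κ} {A : Set (K κ)} (hA : #(↥A) = κ) : (fil hκ A).NeBot := by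
  rw [neBot_iff, ne_eq, ← empty_mem_iff_bot, mem_fil, sdiff_empty, hA]
  exact lt_irrefl κ

theorem fil_dich {hκ : ℵ₀ ≤ κ} {A S : Set (K κ)} (h : #(↥(A ∩ S)) < κ ∨ #(↥(A \ S)) < κ) :
    (∀ᶠ ξ in fil hκ A, ξ ∈ S) ∨ (∀ᶠ ξ in fil hκ A, ξ ∉ S) := by
  rcases h with h | h
  · right
    change Sᶜ ∈ fil hκ A
    rw [mem_fil, sdiff_compl]
    exact h
  · left
    change S ∈ fil hκ A
    rw [mem_fil]
    exact h

/-- the symbols of the terms -/
inductive Sym (J C : Type u) : Type u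
  | id : Sym J C
  | const : C → Sym J C
  | fn : J → Sym J C

/-- the arities of the symbols -/
def ar {J C : Type u} : Sym J C → Type u
  | .id => PEmpty
  | .const _ => PEmpty
  | .fn _ => ULift Bool

/-- the terms -/
abbrev Tm (J C : Type u) : Type u := WType (ar (J := J) (C := C))

instance {J C : Type u} (a : Sym J C) : Finite (ar a) := by
  cases a <;> simp only [ar] <;> infer_instance

theorem mkTm {J C : Type u} {θ : Cardinal.{u}} (hθ : ℵ₀ ≤ θ) (hJ : #J ≤ θ) (hC : #C ≤ θ) :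
    #(Tm J C) ≤ θ := by
  refine WType.cardinalMk_le_max_aleph0_of_finite.trans (max_le ?_ hθ)
  have h1 : #(Sym J C) ≤ #(J ⊕ (C ⊕ ULift.{u} Unit)) := by
    refine mk_le_of_injective (f := fun s => match s with
      | .id => Sum.inr (Sum.inr ⟨()⟩)
      | .const c => Sum.inr (Sum.inl c)
      | .fn i => Sum.inl i) ?_
    intro a b
    cases a <;> cases b <;> simp
  refine h1.trans ?_
  simp only [mk_sum, Cardinal.lift_id]
  refine add_le_of_le hθ hJ (add_le_of_le hθ hC ?_)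
  exact (mk_le_aleph0).trans hθ

/-- the function from `κ` to the ordinals which is named by a term -/
noncomputable def ev {J : Type u} (f : J → Ordinal.{u} → Ordinal.{u} → Ordinal.{u}) :
    Tm J (K κ) → K κ → Ordinal.{u} :=
  WType.elim (K κ → Ordinal.{u}) fun p => match p with
    | ⟨.id, _⟩ => fun ξ => vo ξ
    | ⟨.const c, _⟩ => fun _ => vo c
    | ⟨.fn j, g⟩ => fun ξ => f j (g ⟨true⟩ ξ) (g ⟨false⟩ ξ)

/-- A family of functions from `κ` to the ordinals, closed under the binary operations `f j`, which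
is measured by an unsplit set `A`, together with a minimal non-constant member `t`. -/
structure Mdl (κ : Cardinal.{u}) (hκ : ℵ₀ ≤ κ) {J : Type u}
    (f : J → Ordinal.{u} → Ordinal.{u} → Ordinal.{u}) where
  A : Set (K κ)
  hA : #(↥A) = κ
  T : Set (K κ → Ordinal.{u})
  const_mem : ∀ c : K κ, (fun _ => vo c) ∈ T
  fn_mem : ∀ j, ∀ a ∈ T, ∀ b ∈ T, (fun ξ => f j (a ξ) (b ξ)) ∈ T
  tri : ∀ a ∈ T, ∀ b ∈ T, (∀ᶠ ξ in fil hκ A, a ξ < b ξ) ∨ (∀ᶠ ξ in fil hκ A, a ξ = b ξ) ∨
    (∀ᶠ ξ in fil hκ A, b ξ < a ξ)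
  t : K κ → Ordinal.{u}
  t_mem : t ∈ T
  t_const : ∀ a ∈ T, (∀ᶠ ξ in fil hκ A, a ξ < t ξ) → ∃ c : K κ, ∀ᶠ ξ in fil hκ A, a ξ = vo c
  t_big : ∀ o < κ.ord, ∀ᶠ ξ in fil hκ A, o < t ξ
  t_small : ∀ᶠ ξ in fil hκ A, t ξ < κ.ord

theorem wf_fil {hκ : ℵ₀ ≤ κ} (hr : κ.IsRegular) (h0 : ℵ₀ < κ) {A : Set (K κ)} (hA : #(↥A) = κ) :
    WellFounded (fun a b : K κ → Ordinal.{u} => ∀ᶠ ξ in fil hκ A, a ξ < b ξ) := by
  have hne : (fil hκ A).NeBot := fil_neBot hA
  have hso : IsStrictOrder (K κ → Ordinal.{u}) (fun a b => ∀ᶠ ξ in fil hκ A, a ξ < b ξ) :=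
    { irrefl := fun t ht => by
        obtain ⟨ξ, hξ⟩ := ht.exists
        exact lt_irrefl _ hξ
      trans := fun a b c hab hbc => by
        filter_upwards [hab, hbc] with ξ h1 h2
        exact h1.trans h2 }
  rw [RelEmbedding.wellFounded_iff_isEmpty]
  refine ⟨fun f => ?_⟩
  have h1 : ∀ᶠ ξ in fil hκ A, ∀ k : ℕ, (f (k + 1)) ξ < (f k) ξ :=
    fil_nat hr h0 fun k => f.map_rel_iff.2 (Nat.lt_succ_self k)
  obtain ⟨ξ, hξ⟩ := h1.exists
  exact (RelEmbedding.wellFounded_iff_isEmpty.1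
    (wellFounded_lt (α := Ordinal.{u}))).false (RelEmbedding.natGT (fun k => (f k) ξ) hξ)

theorem exists_mdl (hr : κ.IsRegular) (h0 : ℵ₀ < κ) {θ : Cardinal.{u}} (hκθ : κ ≤ θ)
    (hθ : θ < splittingNumber κ) {J : Type u} (hJ : #J ≤ θ)
    (f : J → Ordinal.{u} → Ordinal.{u} → Ordinal.{u}) : Nonempty (Mdl κ h0.le f) := by
  classical
  have hκ : ℵ₀ ≤ κ := h0.le
  have hθ0 : ℵ₀ ≤ θ := hκ.trans hκθ
  set e : Tm J (K κ) → K κ → Ordinal.{u} := ev f with he
  have hTm : #(Tm J (K κ)) ≤ θ := mkTm hθ0 hJ (mkK.trans_le hκθ)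
  -- the unsplit set
  obtain ⟨A, hA, hAS⟩ := exists_unsplit hθ
    (Set.range (fun p : Tm J (K κ) × Tm J (K κ) => {ξ | e p.1 ξ < e p.2 ξ}) ∪
      Set.range (fun p : Tm J (K κ) × Tm J (K κ) => {ξ | e p.1 ξ = e p.2 ξ})) (by
      refine (mk_union_le _ _).trans (add_le_of_le hθ0 ?_ ?_) <;>
      · refine mk_range_le.trans ?_
        rw [mk_prod, lift_id]
        exact (mul_le_mul' hTm hTm).trans_eq (mul_eq_self hθ0))
  set F := fil hκ A with hF
  have hne : F.NeBot := fil_neBot hA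
  have hlt : ∀ t t', (∀ᶠ ξ in F, e t ξ < e t' ξ) ∨ (∀ᶠ ξ in F, ¬ e t ξ < e t' ξ) := fun t t' =>
    fil_dich (hκ := hκ) (hAS _ (Or.inl ⟨(t, t'), rfl⟩))
  have heq : ∀ t t', (∀ᶠ ξ in F, e t ξ = e t' ξ) ∨ (∀ᶠ ξ in F, ¬ e t ξ = e t' ξ) := fun t t' =>
    fil_dich (hκ := hκ) (hAS _ (Or.inr ⟨(t, t'), rfl⟩))
  have htri : ∀ t t', (∀ᶠ ξ in F, e t ξ < e t' ξ) ∨ (∀ᶠ ξ in F, e t ξ = e t' ξ) ∨
      (∀ᶠ ξ in F, e t' ξ < e t ξ) := by
    intro t t'
    rcases hlt t t' with h1 | h1
    · exact Or.inl h1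
    rcases heq t t' with h2 | h2
    · exact Or.inr (Or.inl h2)
    · right; right
      filter_upwards [h1, h2] with ξ h3 h4
      exact lt_of_le_of_ne (not_lt.1 h3) (Ne.symm h4)
  let tid : Tm J (K κ) := WType.mk Sym.id PEmpty.elim
  let tconst : K κ → Tm J (K κ) := fun c => WType.mk (Sym.const c) PEmpty.elim
  have hevid : ∀ ξ, e tid ξ = vo ξ := fun _ => rfl
  have hevc : ∀ c ξ, e (tconst c) ξ = vo c := fun _ _ => rfl
  -- the identity is not constant
  have hidc : ∀ c : K κ, ¬ ∀ᶠ ξ in F, e tid ξ = vo c := by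
    intro c hc
    have h1 : (A \ {ξ | e tid ξ = vo c}) ∪ {c} ⊇ A := by
      intro ξ hξ
      by_cases h2 : ξ = c
      · exact Or.inr h2
      · exact Or.inl ⟨hξ, fun h3 => h2 (vo_inj h3)⟩
    have h2 : #(↥A) < κ := (mk_le_mk_of_subset h1).trans_lt ((mk_union_le _ _).trans_lt
      (add_lt_of_lt hκ (mem_fil.1 hc) (by simpa using one_lt_aleph0.trans_le hκ)))
    exact absurd hA h2.ne
  -- a minimal non-constant term
  obtain ⟨t₀, ht₀, hmin⟩ := (InvImage.wf e (wf_fil (hκ := hκ) hr h0 hA)).has_min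
    {t : Tm J (K κ) | ∀ c : K κ, ¬ ∀ᶠ ξ in F, e t ξ = vo c} ⟨tid, hidc⟩
  have hconst : ∀ t, (∀ᶠ ξ in F, e t ξ < e t₀ ξ) → ∃ c : K κ, ∀ᶠ ξ in F, e t ξ = vo c := by
    intro t ht
    by_contra hc
    exact hmin t (not_exists.1 hc) ht
  -- `t₀` is above each constant
  have hbig : ∀ o < κ.ord, ∀ᶠ ξ in F, o < e t₀ ξ := by
    intro o ho
    obtain ⟨c, rfl⟩ := exists_vo ho
    rcases htri (tconst c) t₀ with h1 | h1 | h1
    · exact h1
    · exact absurd (h1.mono fun ξ hξ => hξ.symm) (ht₀ c)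
    · exfalso
      have h2 : ∀ x : (Order.succ (vo c)).ToType, ∀ᶠ ξ in F,
          ¬ e t₀ ξ = ((Ordinal.ToType.mk.symm x : Iio (Order.succ (vo c))) : Ordinal.{u}) := by
        intro x
        have hx : ((Ordinal.ToType.mk.symm x : Iio (Order.succ (vo c))) : Ordinal.{u}) < κ.ord :=
          (Order.lt_succ_iff.1 (Ordinal.ToType.mk.symm x : Iio (Order.succ (vo c))).2).trans_lt
            (vo_lt c)
        obtain ⟨d, hd⟩ := exists_vo hx
        rcases heq t₀ (tconst d) with h3 | h3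
        · exact absurd h3 (ht₀ d)
        · rw [← hd]
          exact h3
      have h3 := fil_all (hκ := hκ) hr (A := A) (ι := (Order.succ (vo c)).ToType) (by
        rw [Cardinal.mk_toType, ← lt_ord]
        exact (isSuccLimit_ord hκ).succ_lt (vo_lt c)) h2
      obtain ⟨ξ, h4, h5⟩ := (h3.and h1).exists
      have h6 : e t₀ ξ < Order.succ (vo c) := h5.trans (Order.lt_succ _)
      exact h4 (Ordinal.ToType.mk ⟨e t₀ ξ, h6⟩) (by simp)
  have hsmall : ∀ᶠ ξ in F, e t₀ ξ < κ.ord := by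
    rcases htri t₀ tid with h2 | h2 | h2
    · exact h2.mono fun ξ hξ => hξ.trans (vo_lt ξ)
    · exact h2.mono fun ξ hξ => hξ.trans_lt (vo_lt ξ)
    · obtain ⟨c, hc⟩ := hconst tid h2
      exact absurd hc (hidc c)
  exact ⟨{
    A := A
    hA := hA
    T := Set.range e
    const_mem := fun c => ⟨tconst c, rfl⟩
    fn_mem := by
      rintro j _ ⟨a, rfl⟩ _ ⟨b, rfl⟩
      refine ⟨WType.mk (Sym.fn j) fun x => if x.down then a else b, ?_⟩
      funext ξ
      rfl
    tri := by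
      rintro _ ⟨a, rfl⟩ _ ⟨b, rfl⟩
      exact htri a b
    t := e t₀
    t_mem := ⟨t₀, rfl⟩
    t_const := by
      rintro _ ⟨a, rfl⟩ ha
      exact hconst a ha
    t_big := hbig
    t_small := hsmall }⟩

end

/-! ### Cardinal successors -/

/-- `plus α m` is the `m`-th cardinal successor of `α`. -/
noncomputable def plus (α : Cardinal.{u}) (m : Ordinal.{u}) : Cardinal.{u} :=
  preAleph (preAleph.symm α + m)

theorem plus_zero (α : Cardinal.{u}) : plus α 0 = α := by simp [plus]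

theorem plus_succ (α : Cardinal.{u}) (m : Ordinal.{u}) :
    plus α (Order.succ m) = Order.succ (plus α m) := by
  rw [plus, plus, Order.succ_eq_add_one, ← add_assoc, ← succ_preAleph]

theorem plus_mono (α : Cardinal.{u}) {m m' : Ordinal.{u}} (h : m ≤ m') : plus α m ≤ plus α m' := by
  rw [plus, plus, preAleph_le_preAleph]
  gcongr

theorem le_plus (α : Cardinal.{u}) (m : Ordinal.{u}) : α ≤ plus α m := by
  have h1 : (0 : Ordinal.{u}) ≤ m := zero_le
  have := plus_mono α h1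
  rwa [plus_zero] at this

theorem plus_limit (α : Cardinal.{u}) {m : Ordinal.{u}} (hm : Order.IsSuccLimit m) {o : Ordinal.{u}}
    (ho : o < (plus α m).ord) : ∃ m' < m, o < (plus α m').ord := by
  have h1 : o.card < plus α m := lt_ord.1 ho
  by_contra hcon
  push Not at hcon
  have h2 : ∀ m' < m, plus α m' ≤ o.card := by
    intro m' hm'
    have h3 := hcon m' hm'
    rw [ord_le] at h3
    exact h3
  have h3 : plus α m ≤ o.card := by
    unfold plus
    have hn : Order.IsNormal (fun x : Ordinal.{u} => preAleph (preAleph.symm α + x)) :=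
      isNormal_preAleph.comp (Ordinal.isNormal_add_right _)
    exact (hn.le_iff_forall_le hm).2 h2
  exact absurd h1 (not_lt.2 h3)

theorem exists_cs : ∃ cs : Ordinal.{u} → Ordinal.{u} → Ordinal.{u},
    (∀ a i, i < a.cof.ord → cs a i < a) ∧ ∀ a x, x < a → ∃ i < a.cof.ord, x ≤ cs a i := by
  have h1 : ∀ a : Ordinal.{u}, ∃ f : Iio a.cof.ord → Iio a, Ordinal.IsFundamentalSeq f :=
    fun a => Ordinal.exists_isFundamentalSeq rfl
  choose f hf using h1
  classical
  refine ⟨fun a i => if hi : i < a.cof.ord then (f a ⟨i, hi⟩ : Iio a).1 else 0, ?_, ?_⟩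
  · intro a i hi
    simp only [dif_pos hi]
    exact (f a ⟨i, hi⟩).2
  · intro a x hx
    obtain ⟨_, ⟨i, rfl⟩, hi⟩ := (hf a).isCofinal_range ⟨x, hx⟩
    refine ⟨i.1, i.2, ?_⟩
    have h2 : i.1 < a.cof.ord := i.2
    simp only [dif_pos h2]
    exact hi

/-- `C` is a closed unbounded subset of `κ` (its elements which are not less than `κ` are
irrelevant). -/
structure IsClubBelow (C : Set Ordinal.{u}) (κ : Cardinal.{u}) : Prop where
  unbounded : ∀ β < κ.ord, ∃ x ∈ C, β < x ∧ x < κ.ord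
  closed : ∀ β < κ.ord, Order.IsSuccLimit β → (∀ x < β, ∃ y ∈ C, x < y ∧ y < β) → β ∈ C

section

variable {κ : Cardinal.{u}}

/-- two places where a function which tends to `κ` takes different values -/
theorem two_places {hκ : ℵ₀ ≤ κ} {J : Type u} {f : J → Ordinal.{u} → Ordinal.{u} → Ordinal.{u}}
    (M : Mdl κ hκ f) {P : K κ → Prop} (hP : ∀ᶠ ξ in fil hκ M.A, P ξ) :
    ∃ ξ ξ', P ξ ∧ P ξ' ∧ M.t ξ < κ.ord ∧ M.t ξ' < κ.ord ∧ M.t ξ < M.t ξ' := by
  have hne : (fil hκ M.A).NeBot := fil_neBot M.hA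
  obtain ⟨ξ, h1, h2⟩ := (hP.and M.t_small).exists
  obtain ⟨ξ', ⟨h3, h4⟩, h5⟩ := ((hP.and M.t_small).and (M.t_big _ h2)).exists
  exact ⟨ξ, ξ', h1, h3, h2, h4, h5⟩

/-- If `s(κ) > κ` then `κ` is a strong limit cardinal. -/
theorem strong_of_lt (hr : κ.IsRegular) (h0 : ℵ₀ < κ) (hs : κ < splittingNumber κ) :
    ∀ x < κ, (2 : Cardinal.{u}) ^ x < κ := by
  classical
  by_contra hcon
  push Not at hcon
  obtain ⟨l, hl, hle⟩ := hcon
  obtain ⟨g⟩ : Nonempty (K κ ↪ Set (K l)) := by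
    have h1 : #(K κ) ≤ #(Set (K l)) := by
      rw [mk_set, mkK, mkK]
      exact hle
    exact h1
  obtain ⟨M⟩ := exists_mdl hr h0 le_rfl hs (J := PUnit.{u+1}) (by
    simpa using (one_lt_aleph0.trans h0).le)
    (fun _ a b => if (∃ x : K κ, ∃ y : K l, vo x = a ∧ vo y = b ∧ y ∈ g x) then 1 else 0)
  have hne : (fil h0.le M.A).NeBot := fil_neBot M.hA
  obtain ⟨c0, hc0⟩ := exists_vo (κ := κ) (o := 0) (by
    rw [← ord_zero]
    exact ord_lt_ord.2 (aleph0_pos.trans h0))
  have h1 : ∀ y : K l, ∃ p : Prop, ∀ᶠ ξ in fil h0.le M.A,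
      ((∃ x : K κ, vo x = M.t ξ ∧ y ∈ g x) ↔ p) := by
    intro y
    obtain ⟨d, hd⟩ := exists_vo (κ := κ) (o := vo y) ((vo_lt y).trans (ord_lt_ord.2 hl))
    have hmem := M.fn_mem PUnit.unit M.t M.t_mem _ (M.const_mem d)
    rcases M.tri _ hmem _ (M.const_mem c0) with h2 | h2 | h2
    · exfalso
      obtain ⟨ξ, hξ⟩ := h2.exists
      rw [hc0] at hξ
      exact absurd hξ (not_lt.2 zero_le)
    · refine ⟨False, h2.mono fun ξ hξ => ?_⟩
      rw [hc0] at hξ
      constructor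
      · rintro ⟨x, hx, hy⟩
        rw [if_pos ⟨x, y, hx, hd.symm, hy⟩] at hξ
        exact one_ne_zero hξ
      · exact False.elim
    · refine ⟨True, h2.mono fun ξ hξ => ?_⟩
      rw [hc0] at hξ
      refine ⟨fun _ => trivial, fun _ => ?_⟩
      by_contra hno
      rw [if_neg] at hξ
      · exact lt_irrefl _ hξ
      · rintro ⟨x, y', hx, hy', hy⟩
        have : y' = y := vo_inj (hy'.trans hd)
        exact hno ⟨x, hx, this ▸ hy⟩
  choose p hp using h1
  have h2 := fil_all (hκ := h0.le) hr (A := M.A) (ι := K l) (by rwa [mkK]) hp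
  obtain ⟨ξ, ξ', h3, h4, h5, h6, h7⟩ := two_places M h2
  obtain ⟨x, hx⟩ := exists_vo h5
  obtain ⟨x', hx'⟩ := exists_vo h6
  have h8 : g x = g x' := by
    ext y
    have e1 : (∃ z : K κ, vo z = M.t ξ ∧ y ∈ g z) ↔ y ∈ g x :=
      ⟨fun ⟨z, hz, hy⟩ => (vo_inj (hz.trans hx.symm)) ▸ hy, fun hy => ⟨x, hx, hy⟩⟩
    have e2 : (∃ z : K κ, vo z = M.t ξ' ∧ y ∈ g z) ↔ y ∈ g x' :=
      ⟨fun ⟨z, hz, hy⟩ => (vo_inj (hz.trans hx'.symm)) ▸ hy, fun hy => ⟨x', hx', hy⟩⟩
    rw [← e1, ← e2, h3 y, h4 y]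
  have h9 : x = x' := g.injective h8
  rw [← hx, ← hx', h9] at h7
  exact lt_irrefl _ h7

end

theorem core {κ : Cardinal.{u}} (hr : κ.IsRegular) (h0 : ℵ₀ < κ) (γ : Ordinal.{u})
    (hγ : γ ≤ κ.ord) (C : Set Ordinal.{u}) (hC : IsClubBelow C κ)
    (hlt : plus κ (Order.succ γ) < splittingNumber κ) :
    ∃ α : Cardinal.{u}, α.IsInaccessible ∧ α < κ ∧ α.ord ∈ C ∧
      plus α (min γ α.ord) < 2 ^ α := by
  classical
  by_contra hcon
  push Not at hcon
  have hκ : ℵ₀ ≤ κ := h0.le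
  set θ : Cardinal.{u} := plus κ (Order.succ γ) with hθdef
  have hκθ : κ ≤ θ := le_plus _ _
  have hθ0 : ℵ₀ ≤ θ := hκ.trans hκθ
  have hstrong := strong_of_lt hr h0 (hκθ.trans_lt hlt)
  -- there are more than `θ` subsets of `κ`
  have hθ2 : θ < #(Set (K κ)) := by
    by_contra hc
    rw [not_lt] at hc
    obtain ⟨A, hA, hAS⟩ := exists_unsplit hlt (Set.univ : Set (Set (K κ))) (by rwa [mk_univ])
    obtain ⟨S, h1, h2⟩ := exists_half hκ A hA
    rcases hAS S (mem_univ S) with h3 | h3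
    · exact absurd h1 h3.ne
    · exact absurd h2 h3.ne
  obtain ⟨⟨X, hX⟩⟩ : Nonempty (θ.out ↪ Set (K κ)) := by
    have : #θ.out ≤ #(Set (K κ)) := by rw [mk_out]; exact hθ2.le
    exact this
  obtain ⟨code, hcode1, hcode2⟩ := exists_code.{u}
  obtain ⟨h, hh1, hh2⟩ := exists_h.{u}
  obtain ⟨cs, hcs1, hcs2⟩ := exists_cs.{u}
  let lam : Ordinal.{u} → Ordinal.{u} := fun β => sInf {x | β.card ≤ 2 ^ x.card}
  let mt : Ordinal.{u} → Ordinal.{u} → Ordinal.{u} := fun a b => sInf {m | b < (plus a.card m).ord}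
  let ops : ℕ → Ordinal.{u} → Ordinal.{u} → Ordinal.{u} := fun n =>
    match n with
    | 0 => h
    | 1 => fun a _ => a.cof.ord
    | 2 => cs
    | 3 => fun a _ => lam a
    | 4 => fun a _ => sSup (C ∩ Iio a)
    | _ => mt
  let f : θ.out ⊕ ULift.{u} ℕ → Ordinal.{u} → Ordinal.{u} → Ordinal.{u} :=
    Sum.elim (fun i a _ => code a (vo '' X i)) (fun n => ops n.down)
  obtain ⟨M⟩ := exists_mdl hr h0 hκθ hlt (J := θ.out ⊕ ULift.{u} ℕ) (by
    simp only [mk_sum, Cardinal.lift_id, mk_out]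
    refine add_le_of_le hθ0 le_rfl ?_
    exact (mk_le_aleph0).trans hθ0) f
  set F := fil h0.le M.A with hF
  have hne : F.NeBot := fil_neBot M.hA
  have hop : ∀ n : ℕ, ∀ a ∈ M.T, ∀ b ∈ M.T, (fun ξ => ops n (a ξ) (b ξ)) ∈ M.T :=
    fun n a ha b hb => M.fn_mem (Sum.inr ⟨n⟩) a ha b hb
  -- almost everywhere `t` is regular
  have hreg : ∀ᶠ ξ in F, M.t ξ ≤ (M.t ξ).cof.ord := by
    have hmem : (fun ξ => (M.t ξ).cof.ord) ∈ M.T := hop 1 M.t M.t_mem M.t M.t_mem
    rcases M.tri _ hmem _ M.t_mem with h1 | h1 | h1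
    · exfalso
      obtain ⟨c, hc⟩ := M.t_const _ hmem h1
      have h2 : ∀ i : (vo c).ToType, ∃ d : K κ, ∀ᶠ ξ in F,
          cs (M.t ξ) ((Ordinal.ToType.mk.symm i : Iio (vo c)) : Ordinal.{u}) = vo d := by
        intro i
        have hi : ((Ordinal.ToType.mk.symm i : Iio (vo c)) : Ordinal.{u}) < vo c :=
          (Ordinal.ToType.mk.symm i : Iio (vo c)).2
        obtain ⟨d, hd⟩ := exists_vo (hi.trans (vo_lt c))
        have hmem2 : (fun ξ => cs (M.t ξ) (vo d)) ∈ M.T :=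
          hop 2 M.t M.t_mem _ (M.const_mem d)
        rw [← hd]
        refine M.t_const _ hmem2 ?_
        filter_upwards [hc] with ξ hξ
        refine hcs1 _ _ ?_
        rw [hξ, hd]
        exact hi
      choose d hd using h2
      have h3 := fil_all (hκ := h0.le) hr (A := M.A) (ι := (vo c).ToType) (by
        rw [Cardinal.mk_toType, ← lt_ord]
        exact vo_lt c) hd
      obtain ⟨ξ, ξ', h4, h5, -, -, h8⟩ := two_places M (h3.and hc)
      obtain ⟨i, hi, hi2⟩ := hcs2 (M.t ξ') (M.t ξ) h8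
      have h9 : (M.t ξ').cof.ord = vo c := h5.2
      have h10 : (M.t ξ).cof.ord = vo c := h4.2
      have hi3 : i < vo c := h9 ▸ hi
      have e1 := h5.1 (Ordinal.ToType.mk ⟨i, hi3⟩)
      have e2 := h4.1 (Ordinal.ToType.mk ⟨i, hi3⟩)
      simp only [OrderIso.symm_apply_apply] at e1 e2
      rw [e1, ← e2] at hi2
      exact absurd (hcs1 (M.t ξ) i (by rw [h10]; exact hi3)) (not_lt.2 hi2)
    · exact h1.mono fun ξ hξ => hξ.ge
    · exact h1.mono fun ξ hξ => hξ.le
  -- almost everywhere `t` is a strong limit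
  have hlamle : ∀ β, lam β ≤ β := fun β => csInf_le' (Cardinal.cantor _).le
  have hstr : ∀ᶠ ξ in F, ∀ x < M.t ξ, (2 : Cardinal.{u}) ^ x.card < (M.t ξ).card := by
    have hmem : (fun ξ => lam (M.t ξ)) ∈ M.T := hop 3 M.t M.t_mem M.t M.t_mem
    rcases M.tri _ hmem _ M.t_mem with h1 | h1 | h1
    · exfalso
      obtain ⟨c, hc⟩ := M.t_const _ hmem h1
      have hμ : (2 : Cardinal.{u}) ^ (vo c).card < κ := hstrong _ (lt_ord.1 (vo_lt c))
      have hμ2 : Order.succ ((2 : Cardinal.{u}) ^ (vo c).card) < κ :=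
        (Order.succ_le_of_lt (Cardinal.cantor _)).trans_lt (hstrong _ hμ)
      obtain ⟨ξ, h2, h3⟩ := (hc.and (M.t_big _ (ord_lt_ord.2 hμ2))).exists
      have h4 : (M.t ξ).card ≤ 2 ^ (lam (M.t ξ)).card :=
        csInf_mem (s := {x : Ordinal.{u} | (M.t ξ).card ≤ 2 ^ x.card})
          ⟨M.t ξ, (Cardinal.cantor _).le⟩
      have h5 : lam (M.t ξ) = vo c := h2
      rw [h5] at h4
      have h6 := Ordinal.card_le_card h3.le
      rw [card_ord] at h6
      exact absurd (h6.trans h4) (not_le.2 (Order.lt_succ _))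
    · refine h1.mono fun ξ hξ x hx => ?_
      by_contra hno
      rw [not_lt] at hno
      have h2 : lam (M.t ξ) ≤ x := csInf_le' hno
      have h3 : lam (M.t ξ) = M.t ξ := hξ
      rw [h3] at h2
      exact absurd hx (not_lt.2 h2)
    · exfalso
      obtain ⟨ξ, hξ⟩ := h1.exists
      exact absurd hξ (not_lt.2 (hlamle _))
  have hinacc : ∀ᶠ ξ in F, ∃ α : Cardinal.{u}, α.IsInaccessible ∧ α < κ ∧ M.t ξ = α.ord := by
    have hω := M.t_big Ordinal.omega0 (by rw [← ord_aleph0]; exact ord_lt_ord.2 h0)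
    filter_upwards [hreg, hstr, M.t_small, M.t_big _ (show (Order.succ ℵ₀ : Cardinal.{u}).ord < κ.ord by
      rw [ord_lt_ord]
      exact (Order.succ_le_of_lt (Cardinal.cantor _)).trans_lt (hstrong _ h0))] with ξ h1 h2 h3 h4
    have e1 : M.t ξ = (M.t ξ).card.ord :=
      le_antisymm (h1.trans (ord_le_ord.2 (Ordinal.cof_le_card _))) (ord_card_le _)
    have e2 : ℵ₀ < (M.t ξ).card := by
      have h5 := Ordinal.card_le_card h4.le
      rw [card_ord] at h5
      exact (Order.lt_succ _).trans_le h5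
    refine ⟨(M.t ξ).card, ⟨e2, ?_, ?_⟩, lt_ord.1 h3, e1⟩
    · rw [← e1]
      have h5 := Ordinal.card_le_card h1
      rwa [card_ord] at h5
    · intro x hx
      have h5 : x.ord < M.t ξ := by rw [e1]; exact ord_lt_ord.2 hx
      have h6 := h2 _ h5
      rwa [card_ord] at h6
  -- almost everywhere `t` belongs to `C`
  have hclub : ∀ᶠ ξ in F, M.t ξ ∈ C := by
    have hmem : (fun ξ => sSup (C ∩ Iio (M.t ξ))) ∈ M.T := hop 4 M.t M.t_mem M.t M.t_mem
    have hge : ∀ᶠ ξ in F, M.t ξ ≤ sSup (C ∩ Iio (M.t ξ)) := by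
      rcases M.tri _ hmem _ M.t_mem with h1 | h1 | h1
      · exfalso
        obtain ⟨c, hc⟩ := M.t_const _ hmem h1
        obtain ⟨x, hx, hx1, hx2⟩ := hC.unbounded _ (vo_lt c)
        obtain ⟨ξ, h2, h3⟩ := (hc.and (M.t_big _ hx2)).exists
        have h4 : x ≤ sSup (C ∩ Iio (M.t ξ)) :=
          le_csSup ⟨M.t ξ, fun y hy => (show y < M.t ξ from hy.2).le⟩ ⟨hx, h3⟩
        have h5 : sSup (C ∩ Iio (M.t ξ)) = vo c := h2
        rw [h5] at h4
        exact absurd hx1 (not_lt.2 h4)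
      · exact h1.mono fun ξ hξ => hξ.ge
      · exact h1.mono fun ξ hξ => hξ.le
    filter_upwards [hge, hinacc, M.t_small] with ξ h1 h2 h3
    obtain ⟨α, hα, -, hα2⟩ := h2
    refine hC.closed _ h3 ?_ ?_
    · rw [hα2]
      exact isSuccLimit_ord hα.aleph0_lt.le
    · intro x hx
      have h4 : x < sSup (C ∩ Iio (M.t ξ)) := hx.trans_le h1
      have hnon : (C ∩ Iio (M.t ξ)).Nonempty := by
        by_contra hemp
        rw [Set.not_nonempty_iff_eq_empty] at hemp
        rw [hemp, csSup_empty] at h4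
        exact absurd h4 (not_lt.2 bot_le)
      obtain ⟨y, hy, hxy⟩ := exists_lt_of_lt_csSup hnon h4
      exact ⟨y, hy.1, hxy, hy.2⟩
  -- the number of functions below `t⁺ᵐ`
  have hP : ∀ m : Ordinal.{u}, m ≤ κ.ord → ∀ (I : Type u) (s : I → K κ → Ordinal.{u}),
      (∀ i, s i ∈ M.T) → (∀ i j, (∀ᶠ ξ in F, s i ξ = s j ξ) → i = j) →
      (∀ i, ∀ᶠ ξ in F, s i ξ < (plus (M.t ξ).card (min m (M.t ξ))).ord) →
      #I ≤ plus κ m := by
    intro m
    induction m using WellFoundedLT.induction with | ind m ih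
    intro hm I s hsT hs hj
    rcases Ordinal.zero_or_succ_or_isSuccLimit m with hm0 | ⟨k, hk⟩ | hmlim
    · subst hm0
      have h1 : ∀ i, ∃ c : K κ, ∀ᶠ ξ in F, s i ξ = vo c := fun i => M.t_const _ (hsT i)
        ((hj i).mono fun ξ hξ => by
          rw [min_eq_left (zero_le), plus_zero] at hξ
          exact hξ.trans_le (ord_card_le _))
      choose c hc using h1
      have h2 : #I ≤ #(K κ) := by
        refine mk_le_of_injective (f := c) fun i j hij => hs i j ?_
        filter_upwards [hc i, hc j] with ξ h3 h4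
        rw [h3, h4, hij]
      rw [plus_zero]
      simpa [mkK] using h2
    · subst hk
      have hksucc : Order.succ k < κ.ord := by
        have h1 : k < κ.ord := (Order.lt_succ k).trans_le hm
        exact (isSuccLimit_ord hκ).succ_lt h1
      have hkt := M.t_big _ hksucc
      by_contra hc
      rw [not_le, plus_succ] at hc
      set μ : Cardinal.{u} := plus κ k with hμ
      let r : I → I → Prop := fun i j => ∀ᶠ ξ in F, s i ξ < s j ξ
      have hwo : IsWellOrder I r :=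
        { trichotomous := fun a b h1 h2 => by
            rcases M.tri _ (hsT a) _ (hsT b) with h3 | h3 | h3
            · exact absurd h3 h1
            · exact hs a b h3
            · exact absurd h3 h2
          wf := InvImage.wf s (wf_fil (hκ := hκ) hr h0 M.hA) }
      have h1 : (Order.succ μ).ord < Ordinal.type r := by
        by_contra h2
        rw [not_lt] at h2
        have h3 := Ordinal.card_le_card h2
        rw [card_ord, Ordinal.card_type] at h3
        exact absurd hc (not_lt.2 h3)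
      set j : I := Ordinal.enum r ⟨(Order.succ μ).ord, h1⟩ with hjdef
      have h2 : #{j' : I // r j' j} = Order.succ μ := by
        have h3 := Ordinal.card_typein (r := r) j
        rw [← h3, hjdef, Ordinal.typein_enum, card_ord]
      have h3 := ih k (Order.lt_succ k) ((Order.le_succ k).trans hm) {j' : I // r j' j}
        (fun j' ξ => h (s j ξ) (s j'.1 ξ)) (fun j' => hop 0 _ (hsT j) _ (hsT j'.1))
        (fun a b hab => ?_) (fun j' => ?_)
      · rw [h2] at h3
        exact absurd h3 (not_le.2 (Order.lt_succ μ))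
      · refine Subtype.ext (hs _ _ ?_)
        have ha : r a.1 j := a.2
        have hb : r b.1 j := b.2
        filter_upwards [hab, ha, hb] with ξ h5 h6 h7
        exact hh2 _ _ _ h6 h7 h5
      · have ha : r j'.1 j := j'.2
        filter_upwards [ha, hj j, hkt] with ξ h5 h6 h7
        rw [min_eq_left h7.le, plus_succ] at h6
        rw [min_eq_left ((Order.le_succ k).trans h7.le)]
        refine (hh1 _ _ h5).trans_le (ord_le_ord.2 ?_)
        exact Order.lt_succ_iff.1 (lt_ord.1 h6)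
    · -- limit step
      have h1 : ∀ i, ∀ᶠ ξ in F, mt (M.t ξ) (s i ξ) < min m (M.t ξ) ∧
          s i ξ < (plus (M.t ξ).card (mt (M.t ξ) (s i ξ))).ord := by
        intro i
        filter_upwards [hj i, hinacc] with ξ h2 h3
        obtain ⟨α, hα, -, hα2⟩ := h3
        have hlim : Order.IsSuccLimit (min m (M.t ξ)) := by
          rcases min_choice m (M.t ξ) with h4 | h4
          · rw [h4]; exact hmlim
          · rw [h4, hα2]; exact isSuccLimit_ord hα.aleph0_lt.le
        obtain ⟨m', hm', h5⟩ := plus_limit _ hlim h2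
        have h6 : mt (M.t ξ) (s i ξ) ≤ m' := csInf_le' h5
        refine ⟨h6.trans_lt hm', ?_⟩
        exact csInf_mem (s := {m | s i ξ < (plus (M.t ξ).card m).ord}) ⟨m', h5⟩
      have h2 : ∀ i, ∃ c : K κ, ∀ᶠ ξ in F, mt (M.t ξ) (s i ξ) = vo c := by
        intro i
        have hmem : (fun ξ => mt (M.t ξ) (s i ξ)) ∈ M.T := hop 5 M.t M.t_mem _ (hsT i)
        refine M.t_const _ hmem ?_
        exact (h1 i).mono fun ξ hξ => hξ.1.trans_le (min_le_right _ _)
      choose c hc using h2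
      have hcm : ∀ i, vo (c i) < m := by
        intro i
        obtain ⟨ξ, h3, h4⟩ := ((hc i).and (h1 i)).exists
        rw [← h3]
        exact h4.1.trans_le (min_le_left _ _)
      have h3 : ∀ x : K κ, #{i : I // c i = x} ≤ plus κ m := by
        intro x
        by_cases hx : vo x < m
        · refine (ih (vo x) hx (hx.le.trans hm) {i : I // c i = x} (fun i => s i.1)
            (fun i => hsT i.1) (fun a b hab => Subtype.ext (hs _ _ hab)) (fun i => ?_)).trans
            (plus_mono _ hx.le)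
          filter_upwards [h1 i.1, hc i.1, M.t_big _ (vo_lt x)] with ξ h4 h5 h6
          rw [min_eq_left h6.le]
          have h7 := h4.2
          rw [h5, i.2] at h7
          exact h7
        · have : IsEmpty {i : I // c i = x} := ⟨fun i => hx (i.2 ▸ hcm i.1)⟩
          rw [mk_eq_zero]
          exact zero_le
      calc #I = #(Σ x : K κ, {i : I // c i = x}) := (mk_congr (Equiv.sigmaFiberEquiv c)).symm
        _ = Cardinal.sum (fun x : K κ => #{i : I // c i = x}) := mk_sigma _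
        _ ≤ Cardinal.sum (fun _ : K κ => plus κ m) := sum_le_sum _ _ h3
        _ = κ * plus κ m := by rw [sum_const', mkK]
        _ ≤ plus κ m * plus κ m := mul_le_mul' (le_plus _ _) le_rfl
        _ = plus κ m := mul_eq_self (hκ.trans (le_plus _ _))
  -- the contradiction
  have h1 := hP γ hγ θ.out (fun i ξ => code (M.t ξ) (vo '' X i))
    (fun i => M.fn_mem (Sum.inl i) M.t M.t_mem M.t M.t_mem) (fun i j hij => ?_) (fun i => ?_)
  · rw [mk_out, hθdef, plus_succ] at h1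
    exact absurd h1 (not_le.2 (Order.lt_succ _))
  · by_contra hne
    have h2 : X i ≠ X j := fun h3 => hne (hX h3)
    obtain ⟨x, hx⟩ : ∃ x, ¬ (x ∈ X i ↔ x ∈ X j) := by
      by_contra h3
      push Not at h3
      exact h2 (Set.ext h3)
    obtain ⟨ξ, h3, h4⟩ := (hij.and (M.t_big (vo x) (vo_lt x))).exists
    have h5 := hcode2 _ _ _ h3 (vo x) h4
    have h6 : ∀ k, vo x ∈ vo '' X k ↔ x ∈ X k := fun k =>
      ⟨fun ⟨y, hy, hyx⟩ => vo_inj hyx ▸ hy, fun hy => ⟨x, hy, rfl⟩⟩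
    rw [h6, h6] at h5
    exact hx h5
  · filter_upwards [hinacc, hclub] with ξ h3 h4
    obtain ⟨α, hα, hακ, hα2⟩ := h3
    have h5 : (M.t ξ).card = α := by rw [hα2, card_ord]
    refine (hcode1 _ _).trans_le (ord_le_ord.2 ?_)
    rw [h5, hα2]
    exact hcon α hα hακ (hα2 ▸ h4)

/-- the splitting number is the cardinality of a splitting family -/
theorem exists_family {κ : Cardinal.{u}} (hκ : ℵ₀ ≤ κ) :
    ∃ F : Set (Set (K κ)), IsSplittingFamily κ F ∧ #(↥F) = splittingNumber κ := by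
  have h1 : IsSplittingFamily κ {S : Set (K κ) | #(↥S) = κ} := by
    refine ⟨fun S hS => hS, fun A hA => ?_⟩
    obtain ⟨S, h1, h2⟩ := exists_half hκ A hA
    refine ⟨A ∩ S, h1, ?_, ?_⟩
    · rwa [← inter_assoc, inter_self]
    · rwa [sdiff_self_inter]
  exact csInf_mem (s := {θ | ∃ F : Set (Set (K κ)), IsSplittingFamily κ F ∧ #(↥F) = θ})
    ⟨_, _, h1, rfl⟩

/-- Let `κ` be a regular uncountable cardinal.

* The splitting number `s(κ)` is the cardinality of a splitting family.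
* Let `γ ≤ κ` be an ordinal. If `s(κ)` is larger than the `(γ + 1)`-st cardinal successor of `κ`,
  then each closed unbounded subset of `κ` contains an inaccessible cardinal `α < κ` such that
  `2 ^ α` is larger than the `γ`-th cardinal successor of `α` (the `α`-th one for `γ = κ`).
* In particular, if `s(κ) = κ⁺³`, then each closed unbounded subset of `κ` contains an
  inaccessible cardinal `α < κ` with `2 ^ α ≥ α⁺²`; so GCH fails below `κ`. -/
theorem result (κ : Cardinal.{u}) (hr : κ.IsRegular) (h0 : ℵ₀ < κ) :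
    (∃ F : Set (Set (K κ)), IsSplittingFamily κ F ∧ #(↥F) = splittingNumber κ) ∧
    (∀ γ ≤ κ.ord, plus κ (γ + 1) < splittingNumber κ → ∀ C : Set Ordinal.{u}, IsClubBelow C κ →
      ∃ α : Cardinal.{u}, α.IsInaccessible ∧ α < κ ∧ α.ord ∈ C ∧ plus α (min γ α.ord) < 2 ^ α) ∧
    (Order.succ (Order.succ (Order.succ κ)) ≤ splittingNumber κ → ∀ C : Set Ordinal.{u},
      IsClubBelow C κ → ∃ α : Cardinal.{u}, α.IsInaccessible ∧ α < κ ∧ α.ord ∈ C ∧
        Order.succ (Order.succ α) ≤ 2 ^ α) ∧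
    ((∀ α : Cardinal.{u}, ℵ₀ ≤ α → α < κ → (2 : Cardinal.{u}) ^ α = Order.succ α) →
      splittingNumber κ ≠ Order.succ (Order.succ (Order.succ κ))) := by
  have hmain : ∀ γ ≤ κ.ord, plus κ (γ + 1) < splittingNumber κ → ∀ C : Set Ordinal.{u},
      IsClubBelow C κ → ∃ α : Cardinal.{u}, α.IsInaccessible ∧ α < κ ∧ α.ord ∈ C ∧
        plus α (min γ α.ord) < 2 ^ α := fun γ hγ hs C hC => by
    rw [← Order.succ_eq_add_one] at hs
    exact core hr h0 γ hγ C hC hs
  have hp1 : ∀ α : Cardinal.{u}, plus α 1 = Order.succ α := fun α => by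
    have := plus_succ α 0
    rwa [Order.succ_eq_add_one, zero_add, plus_zero] at this
  have hthree : Order.succ (Order.succ (Order.succ κ)) ≤ splittingNumber κ →
      ∀ C : Set Ordinal.{u}, IsClubBelow C κ → ∃ α : Cardinal.{u}, α.IsInaccessible ∧ α < κ ∧
        α.ord ∈ C ∧ Order.succ (Order.succ α) ≤ 2 ^ α := by
    intro hs C hC
    have h1κ : (1 : Ordinal.{u}) ≤ κ.ord := by
      rw [← ord_one]
      exact ord_le_ord.2 (one_lt_aleph0.trans h0).le
    obtain ⟨α, hα, hακ, hαC, h2⟩ := hmain 1 h1κ (by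
      rw [← Order.succ_eq_add_one, plus_succ, hp1]
      exact (Order.lt_succ _).trans_le hs) C hC
    refine ⟨α, hα, hακ, hαC, ?_⟩
    have h1α : (1 : Ordinal.{u}) ≤ α.ord := by
      rw [← ord_one]
      exact ord_le_ord.2 (one_lt_aleph0.trans hα.aleph0_lt).le
    rw [min_eq_left h1α, hp1] at h2
    exact Order.succ_le_of_lt h2
  refine ⟨exists_family h0.le, hmain, hthree, fun hg heq => ?_⟩
  obtain ⟨α, hα, hακ, -, h2⟩ := hthree heq.ge Set.univ
    ⟨fun β hβ => ⟨Order.succ β, mem_univ _, Order.lt_succ β, (isSuccLimit_ord h0.le).succ_lt hβ⟩,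
      fun _ _ _ _ => mem_univ _⟩
  rw [hg α hα.aleph0_lt.le hακ] at h2
  exact absurd h2 (not_le.2 (Order.lt_succ _))

end Pool.Agent.Results.MP_0882a3_lc.StationaryFailure
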